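import Mathlib
import Pool.Agent.H24.FD.P3

/-!
# MP_1f2761, k = 2: row CRN (numeric crude bound)
-/

set_option autoImplicit false

open Finset Pool.K2 Pool.FD MeasureTheory

namespace Pool.Agent.H24.FD

theorem crn : CRNStmt := by
  intro hC hG hZ q l K J v hq hl hM hK hv E hE hcard D hD hDk x
  obtain ⟨hW, hEP⟩ := hG l hM v
  set Y := yy q (J - l * v) with hY
  have hK0 : (0 : ℝ) < K := by exact_mod_cast hK
  rw [hEP]
  have h1 := hC (l * v) (pw l v) hW K hK E hE Y ((2 : ℝ) ^ (l * v) * x.1 * Y)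
    ((2 : ℝ) ^ (l * v) * x.2 * Y)
  have h2 : ∑ n ∈ range (2 ^ (l * v)), ∑ a ∈ range (2 ^ (l * v)),
      pw l v n a * (fun y : ℕ × ℕ => if (ix K (y.1 * Y), ix K (y.2 * Y)) ∈ E
        then (1 : ℝ) else 0) (2 ^ (l * v) * x.1 + n, 2 ^ (l * v) * x.2 + a) =
      ∑ n ∈ range (2 ^ (l * v)), ∑ a ∈ range (2 ^ (l * v)),
        if (ix K ((2 : ℝ) ^ (l * v) * x.1 * Y + Y * n), ix K ((2 : ℝ) ^ (l * v) * x.2 * Y + Y * a)) ∈ E
        then pw l v n a else 0 := by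
    refine Finset.sum_congr rfl fun n _ => Finset.sum_congr rfl fun a _ => ?_
    have e1 : ((2 ^ (l * v) * x.1 + n : ℕ) : ℝ) * Y = (2 : ℝ) ^ (l * v) * x.1 * Y + Y * n := by
      push_cast; ring
    have e2 : ((2 ^ (l * v) * x.2 + a : ℕ) : ℝ) * Y = (2 : ℝ) ^ (l * v) * x.2 * Y + Y * a := by
      push_cast; ring
    simp only [e1, e2]
    split_ifs <;> simp
  rw [h2]
  refine h1.trans ?_
  have h3 : Real.sqrt ((E.card : ℝ) / (K : ℝ) ^ 2) ≤ (K : ℝ) ^ (-(265 / 1000 : ℝ)) := by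
    have h4 : (K : ℝ) ^ (-(265 / 1000 : ℝ)) = Real.sqrt ((K : ℝ) ^ (-(53 / 100 : ℝ))) := by
      rw [Real.sqrt_eq_rpow, ← Real.rpow_mul hK0.le]
      norm_num
    rw [h4]
    exact Real.sqrt_le_sqrt hcard
  have h5 : Real.sqrt (Dk (l * v) (pw l v) K Y) ≤ Real.sqrt D := Real.sqrt_le_sqrt hDk
  have h6 : Real.sqrt ((E.card : ℝ) / (K : ℝ) ^ 2) * Real.sqrt (Dk (l * v) (pw l v) K Y) ≤
      (K : ℝ) ^ (-(265 / 1000 : ℝ)) * Real.sqrt D :=
    mul_le_mul h3 h5 (Real.sqrt_nonneg _) (Real.rpow_nonneg hK0.le _)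
  nlinarith [h6, hcard]

end Pool.Agent.H24.FD
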