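import Mathlib
import Pool.Agent.H24.FD.P3

/-!
# MP_1f2761, k = 2: row MSS (bounded masses at a non-exceptional state)
-/

set_option autoImplicit false

open Finset Pool.K2 Pool.FD MeasureTheory

namespace Pool.Agent.H24.FD.MSS

/-- `c4 ≤ 6.1` -/
theorem c4_le : c4 ≤ 61 / 10 := by
  have h1 : Real.pi < 3.1416 := Real.pi_lt_d4
  have h0 : 0 < Real.pi := Real.pi_pos
  unfold c4
  have h2 : Real.pi ^ 2 ≤ 3.1416 ^ 2 := by
    apply pow_le_pow_left₀ h0.le h1.le
  have h3 : (Real.pi ^ 2 / 4) ^ 2 ≤ (3.1416 ^ 2 / 4) ^ 2 := by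
    apply pow_le_pow_left₀ (by positivity)
    linarith
  refine h3.trans ?_
  norm_num

theorem c4_nonneg : 0 ≤ c4 := by unfold c4; positivity

theorem ex_zero : ex 0 = 1 := by simp [ex]

/-- the coefficient at `0` is `c4` times the mean -/
theorem omh_zero (P : ℕ) (hP : 0 < P) (Om : ℕ → ℕ → ℝ) (hOm : ∀ a b, 0 ≤ Om a b) :
    ‖omh P Om 0 0‖ = c4 * ((∑ z₁ ∈ range P, ∑ z₂ ∈ range P, Om z₁ z₂) / (P : ℝ) ^ 2) := by
  have hS : 0 ≤ ∑ z₁ ∈ range P, ∑ z₂ ∈ range P, Om z₁ z₂ :=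
    Finset.sum_nonneg fun _ _ => Finset.sum_nonneg fun _ _ => hOm _ _
  have h1 : omd P Om 0 0 =
      (((∑ z₁ ∈ range P, ∑ z₂ ∈ range P, Om z₁ z₂) / (P : ℝ) ^ 2 : ℝ) : ℂ) := by
    unfold omd
    simp [ex_zero]
  have h2 : omh P Om 0 0 =
      ((c4 * ((∑ z₁ ∈ range P, ∑ z₂ ∈ range P, Om z₁ z₂) / (P : ℝ) ^ 2) : ℝ) : ℂ) := by
    unfold omh
    rw [h1]
    simp [ex_zero]
  rw [h2, Complex.norm_real, Real.norm_eq_abs, abs_of_nonneg]
  exact mul_nonneg c4_nonneg (by positivity)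

theorem phi_zero (r : ℕ) (p : ℕ → ℕ → ℝ) (hW : Wt r p) : ‖phi r p 0 0‖ ≤ 1 := by
  have h : phi r p 0 0 =
      ((∑ n ∈ range (2 ^ r), ∑ a ∈ range (2 ^ r), p n a : ℝ) : ℂ) := by
    unfold phi
    simp [ex_zero]
  rw [h, Complex.norm_real, Real.norm_eq_abs, abs_of_nonneg]
  · exact hW.2
  · exact Finset.sum_nonneg fun _ _ => Finset.sum_nonneg fun _ _ => hW.1 _ _

/-- sum over a shifted residue -/
theorem sum_shift (P d : ℕ) (hP : 0 < P) (f : ℕ → ℝ) :
    ∑ z ∈ range P, f ((z + d) % P) = ∑ z ∈ range P, f z := by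
  refine Finset.sum_bij (fun z _ => (z + d) % P) ?_ ?_ ?_ ?_
  · intro z _
    exact Finset.mem_range.2 (Nat.mod_lt _ hP)
  · intro a ha b hb hab
    have ha' := Finset.mem_range.1 ha
    have hb' := Finset.mem_range.1 hb
    have h1 : (a + d) ≡ (b + d) [MOD P] := hab
    have h2 : a ≡ b [MOD P] := Nat.ModEq.add_right_cancel' d h1
    exact Nat.ModEq.eq_of_lt_of_lt h2 ha' hb'
  · intro b hb
    have hb' := Finset.mem_range.1 hb
    refine ⟨(b + (P - d % P)) % P, Finset.mem_range.2 (Nat.mod_lt _ hP), ?_⟩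
    have h0 : d % P < P := Nat.mod_lt _ hP
    have h1 : ((b + (P - d % P)) % P + d) % P = (b + (P - d % P) + d % P) % P := by
      have e1 : (b + (P - d % P)) % P + d ≡ (b + (P - d % P)) + d % P [MOD P] :=
        Nat.ModEq.add (Nat.mod_modEq _ _) (Nat.mod_modEq _ _).symm
      exact e1
    rw [h1]
    have h2 : b + (P - d % P) + d % P = b + P := by omega
    rw [h2, Nat.add_mod_right, Nat.mod_eq_of_lt hb']
  · intro a _
    rfl

/-- mean of the density of the partial block -/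
theorem mean_OMp (hK : KEFStmt) {q m g t₁ l k : ℕ} {wm : ℕ → ℕ → ℝ} (hP : Par q m g t₁ l k wm)
    (J u : ℕ) (hJ : l * k ≤ J) (hle : tt q (l * u) J ≤ tt q (l * k) J) :
    ∑ z₁ ∈ range (q ^ tt q (l * u) J), ∑ z₂ ∈ range (q ^ tt q (l * u) J),
      OMp q m g t₁ l k wm J u z₁ z₂ = 9 * ((q ^ tt q (l * u) J : ℕ) : ℝ) ^ 2 := by
  obtain ⟨_, _, _, hsum, _, _⟩ := hK q m g t₁ (tt q (l * k) J) (tt q (l * u) J) kk wm hP.hq hP.hm
    hP.hg (hP.ht J hJ) hle (by unfold kk; norm_num) hP.hmk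
  set P := q ^ tt q (l * u) J with hPdef
  have hP0 : 0 < P := Nat.pow_pos (by have := hP.hq; omega)
  have hrow : ∀ V, ∑ A ∈ range P, omF q m g t₁ wm (tt q (l * k) J) (tt q (l * u) J) (V, A) =
      (P : ℝ) := by
    intro V
    rw [hPdef, hsum V]
    push_cast
    rfl
  have h1 : ∀ d₁ d₂ : ℕ, ∑ z₁ ∈ range P, ∑ z₂ ∈ range P,
      omF q m g t₁ wm (tt q (l * k) J) (tt q (l * u) J) ((z₁ + d₁) % P, (z₂ + d₂) % P) =
      (P : ℝ) ^ 2 := by
    intro d₁ d₂
    have h2 : ∀ z₁ ∈ range P, ∑ z₂ ∈ range P,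
        omF q m g t₁ wm (tt q (l * k) J) (tt q (l * u) J) ((z₁ + d₁) % P, (z₂ + d₂) % P) =
        (P : ℝ) := by
      intro z₁ _
      rw [sum_shift P d₂ hP0 (fun z => omF q m g t₁ wm (tt q (l * k) J) (tt q (l * u) J)
        ((z₁ + d₁) % P, z))]
      exact hrow _
    rw [Finset.sum_congr rfl h2, Finset.sum_const, card_range, nsmul_eq_mul]
    ring
  have h3 : ∀ z₁ z₂, OMp q m g t₁ l k wm J u z₁ z₂ = 1 + 2 *
      (omF q m g t₁ wm (tt q (l * k) J) (tt q (l * u) J) ((z₁ + 0) % P, (z₂ + 0) % P) +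
       omF q m g t₁ wm (tt q (l * k) J) (tt q (l * u) J) ((z₁ + 0) % P, (z₂ + 1) % P) +
       (omF q m g t₁ wm (tt q (l * k) J) (tt q (l * u) J) ((z₁ + 1) % P, (z₂ + 0) % P) +
       omF q m g t₁ wm (tt q (l * k) J) (tt q (l * u) J) ((z₁ + 1) % P, (z₂ + 1) % P))) := by
    intro z₁ z₂
    unfold OMp omFP
    simp only [Finset.sum_range_succ, Finset.sum_range_zero, zero_add]
    rfl
  simp only [h3, Finset.sum_add_distrib, ← Finset.mul_sum, h1]
  simp only [Finset.sum_const, card_range, nsmul_eq_mul]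
  ring

end Pool.Agent.H24.FD.MSS

namespace Pool.Agent.H24.FD

open MSS

theorem mss (hMA : Pool.FD.MASStmt) (hRZ : Pool.FD.RZDStmt) (hVA : Pool.FD.VANStmt)
    (hK : KEFStmt) (hG : GLPStmt) (hZ : GLZStmt) : MSSStmt := by
  intro q m g t₁ l k J wm hP hJ x hx u hu
  have hq : 2 ≤ q := hP.hq
  have hq1 : (1 : ℝ) < q := by exact_mod_cast (by omega : 1 < q)
  have hq0 : (0 : ℝ) < q := by linarith
  have hluk : l * u + l * (k - u) = l * k := by
    rw [← Nat.mul_add]
    congr 1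
    omega
  have hluJ : l * u ≤ J := by omega
  obtain ⟨_, _, _, _, _, _, htt⟩ := hZ q (l * u) J hq hluJ 0 0
  have hle : tt q (l * u) J ≤ tt q (l * k) J := by
    have h := htt (l * (k - u)) (by omega)
    rw [hluk] at h
    omega
  obtain ⟨hnn, _, _, hsum, hper, htriv⟩ := hK q m g t₁ (tt q (l * k) J) (tt q (l * u) J) kk wm hq
    hP.hm hP.hg (hP.ht J hJ) hle (by unfold kk; norm_num) hP.hmk
  set t := tt q (l * u) J with ht
  set Om := OMp q m g t₁ l k wm J u with hOm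
  have hOmP : ∀ a b, 0 ≤ Om a b := by
    intro a b
    rw [hOm]
    unfold OMp omFP
    have : 0 ≤ ∑ d₁ ∈ range 2, ∑ d₂ ∈ range 2,
        omF q m g t₁ wm (tt q (l * k) J) (tt q (l * u) J)
          (((a, b).1 + d₁) % q ^ tt q (l * u) J, ((a, b).2 + d₂) % q ^ tt q (l * u) J) :=
      Finset.sum_nonneg fun _ _ => Finset.sum_nonneg fun _ _ => hnn _
    linarith
  obtain ⟨hW, hEP⟩ := hG l hP.marg u
  have hPt : 0 < q ^ t := Nat.pow_pos (by omega)
  -- the mass is bounded by the linearised sum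
  have h1 : EP eb l u (fun y => 1 + 2 * omFP q m g t₁ wm (tt q (l * k) J) t
      (zz q (l * u) J y)) x ≤
      ‖Rs (l * u) (pw l u) (q ^ t) Om 0 (yy q (J - l * u)) (x.1 * yy q J) (x.2 * yy q J)‖ := by
    rw [hEP]
    refine le_trans (le_of_eq ?_) (hMA (l * u) (pw l u) hW (q ^ t) hPt Om hOmP (yy q (J - l * u))
      (x.1 * yy q J) (x.2 * yy q J))
    refine Finset.sum_congr rfl fun n _ => Finset.sum_congr rfl fun a _ => ?_
    have e1 := (hZ q (l * u) J hq hluJ x.1 n).2.1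
    have e2 := (hZ q (l * u) J hq hluJ x.2 a).2.1
    have e3 : zz q (l * u) J (2 ^ (l * u) * x.1 + n, 2 ^ (l * u) * x.2 + a) =
        (fl (q ^ t) (((q ^ t : ℕ) : ℝ) * (x.1 * yy q J) + yy q (J - l * u) * n),
         fl (q ^ t) (((q ^ t : ℕ) : ℝ) * (x.2 * yy q J) + yy q (J - l * u) * a)) := by
      unfold zz
      rw [← ht] at e1 e2
      simp only [← ht]
      push_cast
      rw [e1, e2]
    simp only [e3]
    rfl
  -- the constant term
  have h2 : ‖omh (q ^ t) Om 0 0 * phi (l * u) (pw l u) 0 0‖ ≤ 9 * (61 / 10) := by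
    rw [norm_mul, omh_zero _ hPt _ hOmP]
    have h3 : (∑ z₁ ∈ range (q ^ t), ∑ z₂ ∈ range (q ^ t), Om z₁ z₂) / ((q ^ t : ℕ) : ℝ) ^ 2 = 9 := by
      rw [hOm, ht, mean_OMp hK hP J u hJ hle]
      have : (0 : ℝ) < ((q ^ tt q (l * u) J : ℕ) : ℝ) := by exact_mod_cast hPt
      field_simp
    rw [h3]
    have h4 := phi_zero _ _ hW
    have h5 := c4_le
    have h6 := c4_nonneg
    have h7 : 0 ≤ ‖phi (l * u) (pw l u) 0 0‖ := norm_nonneg _
    nlinarith
  -- the low shells vanish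
  have h3 : ∀ i ∈ Icc 1 t, i ≤ t₁ →
      Rsh q i (l * u) (pw l u) (q ^ t) Om (yy q (J - l * u)) (x.1 * yy q J) (x.2 * yy q J) = 0 := by
    intro i hi hi1
    have hi' := Finset.mem_Icc.1 hi
    unfold Rsh
    refine Finset.sum_eq_zero fun mm hmm => ?_
    have hv : Rc (l * u) (pw l u) (q ^ t) Om 0 (yy q (J - l * u)) mm = 0 := by
      rcases le_total t₁ t with htt1 | htt1
      · refine hVA q t t₁ i (l * u) hq htt1 hi1 (pw l u) Om (yy q (J - l * u)) ?_ mm hmm
        intro z1 _ z2 _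
        have hdvd : q ^ (t - t₁) ∣ q ^ t := pow_dvd_pow q (by omega)
        have key : ∀ z d : ℕ, ((z + q ^ (t - t₁)) % q ^ t + d) % q ^ t % q ^ (t - t₁) =
            (z + d) % q ^ t % q ^ (t - t₁) := by
          intro z d
          rw [Nat.mod_mod_of_dvd _ hdvd, Nat.mod_mod_of_dvd _ hdvd, Nat.add_mod,
            Nat.mod_mod_of_dvd _ hdvd, Nat.add_mod_right, ← Nat.add_mod]
        constructor
        · rw [hOm]
          unfold OMp omFP
          simp only [← ht]
          congr 2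
          refine Finset.sum_congr rfl fun d₁ _ => Finset.sum_congr rfl fun d₂ _ => ?_
          rw [hper htt1, hper htt1 ((z1 + d₁) % q ^ t, (z2 + d₂) % q ^ t)]
          simp only [key]
        · rw [hOm]
          unfold OMp omFP
          simp only [← ht]
          congr 2
          refine Finset.sum_congr rfl fun d₁ _ => Finset.sum_congr rfl fun d₂ _ => ?_
          rw [hper htt1, hper htt1 ((z1 + d₁) % q ^ t, (z2 + d₂) % q ^ t)]
          simp only [key]
      · refine hVA q t t i (l * u) hq le_rfl hi'.2 (pw l u) Om (yy q (J - l * u)) ?_ mm hmm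
        intro z1 _ z2 _
        have hc : ∀ a b, Om a b = 9 := by
          intro a b
          rw [hOm]
          unfold OMp omFP
          simp only [← ht, htriv htt1]
          simp only [Finset.sum_const, card_range, nsmul_eq_mul]
          norm_num
        simp only [hc]
        exact ⟨trivial, trivial⟩
    rw [hv, zero_mul]
  -- the high shells
  have h4 : ∀ i ∈ Ioc t₁ t, ‖Rsh q i (l * u) (pw l u) (q ^ t) Om (yy q (J - l * u))
      (x.1 * yy q J) (x.2 * yy q J)‖ ≤ (q : ℝ) ^ (-(5 / 10000 * i : ℝ)) := by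
    intro i hi
    have hi' := Finset.mem_Ioc.1 hi
    have hu1 : u ∈ Ico 1 k := by
      refine Finset.mem_Ico.2 ⟨?_, hu⟩
      rcases Nat.eq_zero_or_pos u with h0 | h0
      · exfalso
        have : t = 0 := by
          rw [ht, h0]
          simp [tt]
        omega
      · exact h0
    by_contra hcon
    push Not at hcon
    refine hx ⟨u, hu1, i, ?_, ?_⟩
    · rw [← ht]; exact hi
    · unfold ShP
      rw [← ht]
      exact hcon
  -- sum of the shells
  have h5 : ‖∑ i ∈ Icc 1 t, Rsh q i (l * u) (pw l u) (q ^ t) Om (yy q (J - l * u))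
      (x.1 * yy q J) (x.2 * yy q J)‖ ≤ 1 := by
    have hsub : Ioc t₁ t ⊆ Icc 1 t := by
      intro i hi
      have := Finset.mem_Ioc.1 hi
      exact Finset.mem_Icc.2 ⟨by omega, this.2⟩
    rw [← Finset.sum_subset hsub (fun i hi hni => h3 i hi (by
      have := Finset.mem_Icc.1 hi
      by_contra hc
      exact hni (Finset.mem_Ioc.2 ⟨by omega, this.2⟩)))]
    refine (norm_sum_le _ _).trans ((Finset.sum_le_sum h4).trans ?_)
    refine le_trans ?_ hP.shells
    have hsm : Summable fun i : ℕ => (q : ℝ) ^ (-(5 / 10000 * (t₁ + 1 + i) : ℝ)) := by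
      have e : ∀ i : ℕ, (q : ℝ) ^ (-(5 / 10000 * (t₁ + 1 + i) : ℝ)) =
          (q : ℝ) ^ (-(5 / 10000 * (t₁ + 1) : ℝ)) * ((q : ℝ) ^ (-(5 / 10000 : ℝ))) ^ i := by
        intro i
        rw [← Real.rpow_natCast, ← Real.rpow_mul hq0.le, ← Real.rpow_add hq0]
        congr 1
        ring
      simp only [e]
      refine Summable.mul_left _ (summable_geometric_of_lt_one (Real.rpow_nonneg hq0.le _) ?_)
      exact Real.rpow_lt_one_of_one_lt_of_neg hq1 (by norm_num)
    have hre : ∑ i ∈ Ioc t₁ t, (q : ℝ) ^ (-(5 / 10000 * i : ℝ)) =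
        ∑ j ∈ range (t - t₁), (q : ℝ) ^ (-(5 / 10000 * (t₁ + 1 + j) : ℝ)) := by
      rcases le_total t t₁ with h | h
      · rw [Finset.Ioc_eq_empty (by omega), Nat.sub_eq_zero_of_le h]
        simp
      · have e : Ioc t₁ t = (range (t - t₁)).image (fun j => t₁ + 1 + j) := by
          ext i
          simp only [Finset.mem_Ioc, Finset.mem_image, Finset.mem_range]
          constructor
          · intro hi
            exact ⟨i - (t₁ + 1), by omega, by omega⟩
          · rintro ⟨j, hj, rfl⟩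
            omega
        rw [e, Finset.sum_image (fun a _ b _ hab => by simpa using hab)]
        refine Finset.sum_congr rfl fun j _ => ?_
        push_cast
        rfl
    rw [hre]
    exact hsm.sum_le_tsum (range (t - t₁)) fun i _ => Real.rpow_nonneg hq0.le _
  refine h1.trans ?_
  rw [hRZ q t (l * u) hq (pw l u) Om]
  refine (norm_add_le _ _).trans ?_
  linarith

end Pool.Agent.H24.FD
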